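import Pool.Agent.H8.BV.Targets

/-!
# TOV: preimages of points of a totally invariant subvariety (helper45)
-/

set_option autoImplicit false

open MvPolynomial
open Pool.Agent.H12.ZD (pmap)
open Pool.Agent.H18.HIT Pool.Agent.H18.HX Pool.Agent.H18.VZ
open Pool.Agent.H8.BIG (KF line)
open Pool.Agent.H8.BV

namespace Pool.Agent.H45.BV

theorem pf_TOV : T_TOV := by
  intro N E k _ P T θ Δ V hB hP hT x hx hq hΔ q hqV
  obtain ⟨M, c, hd⟩ := hB.gen q
  have h1 : aeval T Δ ^ M * q - ∑ i : Fin E, θ ^ (i : ℕ) * aeval T (c i) ∈ V :=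
    V.mem_of_dvd hd hP
  have h2 : aeval T Δ ^ M * q ∈ V := V.mul_mem_left _ hqV
  have h3 : ∑ i : Fin E, θ ^ (i : ℕ) * aeval T (c i) ∈ V := by
    have := V.sub_mem h2 h1
    rwa [sub_sub_cancel] at this
  have h4 : ∀ i, c i ∈ V := hT.ind c h3
  obtain ⟨d, hd⟩ := hd
  have h5 : eval x (aeval T Δ ^ M * q - ∑ i : Fin E, θ ^ (i : ℕ) * aeval T (c i)) = 0 := by
    rw [hd, map_mul, hx, zero_mul]
  rw [map_sub, map_mul, map_pow, map_sum, eval_aeval] at h5
  have h6 : ∑ i : Fin E, eval x (θ ^ (i : ℕ) * aeval T (c i)) = 0 := by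
    refine Finset.sum_eq_zero fun i _ => ?_
    rw [map_mul, eval_aeval, hq _ (h4 i), mul_zero]
  rw [h6, sub_zero] at h5
  exact (mul_eq_zero.mp h5).resolve_left (pow_ne_zero _ hΔ)

end Pool.Agent.H45.BV
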